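import Pool.Agent.Y486.PC.Theta

/-! PC-NULL: the space `P` is not contractible. -/

set_option autoImplicit false

open Set Topology

namespace Pool.Agent.Y486.PC

open Pool.Agent.Y704.PC Pool.Agent.W621

theorem isClosed_P : IsClosed P := by
  have h1 : IsClosed {x : (ℝ × ℂ) × ℂ | 0 ≤ x.1.1} :=
    isClosed_le continuous_const (by fun_prop)
  have h2 : IsClosed {x : (ℝ × ℂ) × ℂ | x.1.1 ≤ 1} :=
    isClosed_le (by fun_prop) continuous_const
  have h3 : IsClosed {x : (ℝ × ℂ) × ℂ | ‖x.1.2‖ ≤ 1} :=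
    isClosed_le (by fun_prop) continuous_const
  have h4 : IsClosed {x : (ℝ × ℂ) × ℂ | x.2 = 0} :=
    isClosed_eq (by fun_prop) continuous_const
  have h5 : IsClosed {x : (ℝ × ℂ) × ℂ | x.1 ∈ Spiral.D} := Spiral.isClosed_D.preimage continuous_fst
  have h6 : IsClosed {x : (ℝ × ℂ) × ℂ | ‖x.2 + x.1.1‖ = x.1.1} := by
    refine isClosed_eq ?_ (by fun_prop)
    have : Continuous fun x : (ℝ × ℂ) × ℂ => (x.1.1 : ℂ) :=
      Complex.continuous_ofReal.comp (by fun_prop)
    exact (continuous_snd.add this).norm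
  exact h1.inter (h2.inter (h3.inter (h4.union (h5.inter h6))))

theorem isCompact_P : IsCompact P := by
  refine Metric.isCompact_of_isClosed_isBounded isClosed_P ?_
  refine (Metric.isBounded_closedBall (x := (0 : (ℝ × ℂ) × ℂ)) (r := 2)).subset ?_
  rintro x ⟨h0, h1, h2, h3⟩
  rw [mem_closedBall_zero_iff, Prod.norm_def, Prod.norm_def]
  refine max_le (max_le ?_ (by linarith)) ?_
  · rw [Real.norm_eq_abs, abs_of_nonneg h0]; linarith
  · rcases h3 with h3 | ⟨-, h3⟩
    · rw [h3, norm_zero]; norm_num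
    · have h4 : ‖x.2‖ ≤ ‖x.2 + x.1.1‖ + ‖(x.1.1 : ℂ)‖ := by
        have := norm_sub_le (x.2 + x.1.1) (x.1.1 : ℂ)
        simpa using this
      rw [h3, Complex.norm_real, Real.norm_eq_abs, abs_of_nonneg h0] at h4
      linarith

instance : CompactSpace ↥P := isCompact_iff_compactSpace.1 isCompact_P

/-- the radius -/
noncomputable def rr (n : ℕ) : ℝ := Real.exp (-(n * (2 * Real.pi)))

theorem rr_pos (n : ℕ) : 0 < rr n := Real.exp_pos _

theorem rr_le (n : ℕ) : rr n ≤ 1 := by
  unfold rr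
  rw [Real.exp_le_one_iff]
  have : (0 : ℝ) ≤ n * (2 * Real.pi) := by positivity
  linarith

theorem log_rr (n : ℕ) : Real.log (rr n) = -(n * (2 * Real.pi)) := Real.log_exp _

theorem exp_log_rr (n : ℕ) : Complex.exp (Real.log (rr n) * Complex.I) = 1 := by
  rw [log_rr]
  have := Complex.exp_eq_exp_iff_exists_int.2 ⟨-(n : ℤ), by
    show ((-(n * (2 * Real.pi)) : ℝ) : ℂ) * Complex.I = 0 + _
    push_cast; ring⟩
  rw [this, Complex.exp_zero]

/-- the circle of the tube over the point `(r_n, 1)` -/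
noncomputable def io (n : ℕ) (θ : ℝ) : (ℝ × ℂ) × ℂ :=
  ((rr n, 1), rr n * (Complex.exp (θ * Complex.I) - 1))

theorem io_mem (n : ℕ) (θ : ℝ) : io n θ ∈ P := by
  refine ⟨(rr_pos n).le, rr_le n, by simp [io], Or.inr ⟨⟨(rr_pos n).le, rr_le n, by simp [io], ?_⟩, ?_⟩⟩
  · simp only [io, Spiral.f]
    rw [exp_log_rr]
  · simp only [io]
    have : (rr n : ℂ) * (Complex.exp (θ * Complex.I) - 1) + rr n =
        rr n * Complex.exp (θ * Complex.I) := by ring
    rw [this, norm_mul, Complex.norm_exp_ofReal_mul_I, mul_one, Complex.norm_real,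
      Real.norm_eq_abs, abs_of_pos (rr_pos n)]

theorem b_mem : (((0, 1), 0) : (ℝ × ℂ) × ℂ) ∈ P :=
  ⟨le_rfl, zero_le_one, by simp, Or.inl rfl⟩

theorem dist_io (n : ℕ) (θ : ℝ) : dist (io n θ) (((0, 1), 0) : (ℝ × ℂ) × ℂ) ≤ 2 * rr n := by
  have h0 := rr_pos n
  rw [Prod.dist_eq, Prod.dist_eq]
  refine max_le (max_le ?_ ?_) ?_
  · simp only [io, Real.dist_eq, sub_zero, abs_of_pos h0]; linarith
  · simp only [io, dist_self]; positivity
  · simp only [io, dist_zero_right]
    rw [norm_mul, Complex.norm_real, Real.norm_eq_abs, abs_of_pos h0, mul_comm]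
    have h1 : ‖Complex.exp (θ * Complex.I) - 1‖ ≤ 2 := by
      refine (norm_sub_le _ _).trans ?_
      rw [Complex.norm_exp_ofReal_mul_I, norm_one]
      norm_num
    gcongr

theorem continuous_io (n : ℕ) : Continuous (io n) := by
  unfold io
  have : Continuous fun θ : ℝ => (θ : ℂ) := Complex.continuous_ofReal
  fun_prop

theorem io_per (n : ℕ) (θ : ℝ) : io n (θ + 2 * Real.pi) = io n θ := by
  unfold io
  have h : Complex.exp (((θ + 2 * Real.pi : ℝ) : ℂ) * Complex.I) = Complex.exp (θ * Complex.I) := by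
    push_cast
    rw [add_mul, Complex.exp_add, Complex.exp_two_pi_mul_I, mul_one]
  rw [h]

theorem theta_io (n : ℕ) (θ : ℝ) : theta (-(n * (2 * Real.pi))) (io n θ) =
    Complex.exp (θ * Complex.I) := by
  have h0 := rr_pos n
  rw [third_iff (show 0 < (io n θ).1.1 from h0)]
  have h1 : (io n θ).1.1 = rr n := rfl
  rw [h1, log_rr, sub_self, abs_zero, if_pos Real.pi_pos]
  simp only [io]
  have h2 : (rr n : ℂ) ≠ 0 := by exact_mod_cast h0.ne'
  field_simp
  ring

/-- the property followed along the homotopy -/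
def T (G : ↥P × unitInterval → ↥P) (n : ℕ) (s : unitInterval) : Prop :=
  ∃ φ : ℝ, (∀ θ, (G (⟨io n θ, io_mem n θ⟩, s) : (ℝ × ℂ) × ℂ) ∈ O φ) ∧
    Deg1 (fun θ => theta φ (G (⟨io n θ, io_mem n θ⟩, s)))

theorem T_zero {G : ↥P × unitInterval → ↥P} (h0 : ∀ x, G (x, 0) = x) (n : ℕ) : T G n 0 := by
  refine ⟨-(n * (2 * Real.pi)), fun θ => ?_, ?_⟩
  · rw [h0]
    refine ⟨io_mem n θ, ?_⟩
    simp only [io, one_mul]
    have := exp_log_rr n
    rw [log_rr] at this
    rw [Complex.exp_neg, this]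
    simp
  · refine ⟨id, continuous_id, fun θ => ?_, fun θ => rfl⟩
    simp only [h0]
    exact theta_io n θ

theorem not_T_one {G : ↥P × unitInterval → ↥P} (h1 : ∀ x, (G (x, 1) : (ℝ × ℂ) × ℂ) = 0)
    (n : ℕ) : ¬ T G n 1 := by
  rintro ⟨φ, h, -⟩
  have := (h 0).2
  rw [h1] at this
  simp at this

/-- the segment from `s` to `s'` -/
noncomputable def seg (s s' t : unitInterval) : unitInterval :=
  ⟨(1 - (t : ℝ)) * s + t * s', by
    have h1 := s.2.1
    have h2 := s.2.2
    have h3 := s'.2.1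
    have h4 := s'.2.2
    have h5 := t.2.1
    have h6 := t.2.2
    constructor
    · have : 0 ≤ 1 - (t : ℝ) := by linarith
      positivity
    · nlinarith⟩

theorem continuous_seg (s s' : unitInterval) : Continuous (seg s s') := by
  unfold seg
  refine Continuous.subtype_mk ?_ _
  fun_prop

theorem seg_zero (s s' : unitInterval) : seg s s' 0 = s := by
  apply Subtype.ext
  simp [seg]

theorem seg_one (s s' : unitInterval) : seg s s' 1 = s' := by
  apply Subtype.ext
  simp [seg]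

theorem dist_seg (s s' t : unitInterval) : dist (seg s s' t) s ≤ dist s' s := by
  rw [Subtype.dist_eq, Subtype.dist_eq, Real.dist_eq, Real.dist_eq]
  have h1 : ((seg s s' t : unitInterval) : ℝ) - s = t * ((s' : ℝ) - s) := by
    simp only [seg]; ring
  rw [h1, abs_mul, abs_of_nonneg t.2.1]
  have := t.2.2
  have h2 := abs_nonneg ((s' : ℝ) - s)
  nlinarith

theorem T_step (hDeg : StDeg) (hSurj : StSurj) (hTheta : StTheta) {G : ↥P × unitInterval → ↥P}
    (hG : Continuous G) {δ : ℝ} (hδ : ∀ p q : ↥P × unitInterval, dist p q < δ →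
      dist (G p) (G q) < 1 / 16) {n : ℕ} (hn : 2 * rr n < δ) {s s' : unitInterval}
    (hs : dist s' s < δ) (h : T G n s) : T G n s' := by
  obtain ⟨φ, hO, hd⟩ := h
  have hδ0 : 0 < δ := lt_of_le_of_lt (by have := rr_pos n; positivity) hn
  set b : ↥P := ⟨((0, 1), 0), b_mem⟩ with hb
  obtain ⟨θ0, hθ0⟩ := hSurj _ hd (-1) (by simp)
  set x0 : (ℝ × ℂ) × ℂ := (G (⟨io n θ0, io_mem n θ0⟩, s) : (ℝ × ℂ) × ℂ) with hx0
  have hne : x0.2 ≠ 0 := by
    intro h0
    have := theta_zero φ h0
    rw [hθ0] at this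
    norm_num at this
  obtain ⟨hr, -, hc⟩ := key (hO θ0) hne
  have hψ : |φ - Real.log x0.1.1| < Real.pi := by
    by_contra hcon
    rw [abs_sub_comm] at hcon
    have := third_iff (φ := φ) hr
    rw [if_neg hcon, hθ0] at this
    norm_num at this
  set ψ := Real.log x0.1.1 with hψdef
  have hx0D : x0.1 ∈ Spiral.D := by
    rcases (hO θ0).1.2.2.2 with h0 | h0
    · exact absurd h0 hne
    · exact h0.1
  have hx02 : x0.1.2 = Complex.exp (ψ * Complex.I) := Spiral.snd_eq hx0D hr
  -- closeness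
  have hclose : ∀ (s'' : unitInterval) (θ : ℝ), dist s'' s < δ →
      (G (⟨io n θ, io_mem n θ⟩, s'') : (ℝ × ℂ) × ℂ) ∈ O ψ := by
    intro s'' θ hs''
    refine ⟨(G _).2, ?_⟩
    set y : (ℝ × ℂ) × ℂ := (G (⟨io n θ, io_mem n θ⟩, s'') : (ℝ × ℂ) × ℂ) with hy
    have d1 : dist (G (⟨io n θ, io_mem n θ⟩, s'')) (G (b, s'')) < 1 / 16 := by
      apply hδ
      rw [Prod.dist_eq]
      refine max_lt ?_ (by rw [dist_self]; exact hδ0)
      exact lt_of_le_of_lt (dist_io n θ) hn
    have d2 : dist (G (b, s'')) (G (b, s)) < 1 / 16 := by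
      apply hδ
      rw [Prod.dist_eq]
      exact max_lt (by rw [dist_self]; exact hδ0) hs''
    have d3 : dist (G (b, s)) (G (⟨io n θ0, io_mem n θ0⟩, s)) < 1 / 16 := by
      apply hδ
      rw [Prod.dist_eq]
      refine max_lt ?_ (by rw [dist_self]; exact hδ0)
      rw [dist_comm]
      exact lt_of_le_of_lt (dist_io n θ0) hn
    have d4 : dist y x0 < 3 / 16 := by
      have e1 := dist_triangle (G (⟨io n θ, io_mem n θ⟩, s'')) (G (b, s''))
        (G (⟨io n θ0, io_mem n θ0⟩, s))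
      have e2 := dist_triangle (G (b, s'')) (G (b, s)) (G (⟨io n θ0, io_mem n θ0⟩, s))
      have e3 : dist y x0 = dist (G (⟨io n θ, io_mem n θ⟩, s''))
        (G (⟨io n θ0, io_mem n θ0⟩, s)) := rfl
      rw [e3]
      linarith
    have d5 : ‖y.1.2 - x0.1.2‖ < 3 / 16 := by
      rw [← dist_eq_norm]
      refine lt_of_le_of_lt ?_ d4
      rw [Prod.dist_eq, Prod.dist_eq]
      exact le_trans (le_max_right _ _) (le_max_left _ _)
    have h5 : y.1.2 * Complex.exp (-((ψ : ℂ) * Complex.I)) =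
        (y.1.2 - x0.1.2) * Complex.exp (-((ψ : ℂ) * Complex.I)) + 1 := by
      rw [sub_mul, hx02, ← Complex.exp_add]
      have : (ψ : ℂ) * Complex.I + -((ψ : ℂ) * Complex.I) = 0 := by ring
      rw [this, Complex.exp_zero]
      ring
    rw [h5, Complex.add_re, Complex.one_re]
    have h6 : ‖(y.1.2 - x0.1.2) * Complex.exp (-((ψ : ℂ) * Complex.I))‖ < 3 / 16 := by
      rw [norm_mul]
      have : -((ψ : ℂ) * Complex.I) = ((-ψ : ℝ) : ℂ) * Complex.I := by push_cast; ring
      rw [this, Complex.norm_exp_ofReal_mul_I, mul_one]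
      exact d5
    have h7 := Complex.abs_re_le_norm ((y.1.2 - x0.1.2) * Complex.exp (-((ψ : ℂ) * Complex.I)))
    have h8 := neg_abs_le ((y.1.2 - x0.1.2) * Complex.exp (-((ψ : ℂ) * Complex.I))).re
    linarith
  have hcl2 : ∀ (t : unitInterval) (θ : ℝ),
      (G (⟨io n θ, io_mem n θ⟩, seg s s' t) : (ℝ × ℂ) × ℂ) ∈ O ψ := fun t θ =>
    hclose _ θ (lt_of_le_of_lt (dist_seg s s' t) hs)
  -- the family
  let H : unitInterval × ℝ → ℂ := fun q =>
    theta ψ (G (⟨io n q.2, io_mem n q.2⟩, seg s s' q.1))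
  have hH : Continuous H := by
    refine ContinuousOn.comp_continuous (hTheta.1 ψ).1 ?_ (fun q => hcl2 q.1 q.2)
    refine continuous_subtype_val.comp (hG.comp (Continuous.prodMk ?_ ?_))
    · exact Continuous.subtype_mk ((continuous_io n).comp continuous_snd) _
    · exact (continuous_seg s s').comp continuous_fst
  have hfin := hDeg unitInterval H hH (fun t θ => (hTheta.1 ψ).2 _ (hcl2 t θ))
    (fun t θ => by
      simp only [H]
      have : (⟨io n (θ + 2 * Real.pi), io_mem n (θ + 2 * Real.pi)⟩ : ↥P) =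
          ⟨io n θ, io_mem n θ⟩ := Subtype.ext (io_per n θ)
      rw [this]) 0 1 (by
      have : (fun θ => H (0, θ)) = fun θ => theta φ (G (⟨io n θ, io_mem n θ⟩, s)) := by
        funext θ
        simp only [H, seg_zero]
        have h9 := hcl2 0 θ
        rw [seg_zero] at h9
        exact (hTheta.2 φ ψ _ hψ (hO θ) h9).symm
      rw [this]
      exact hd)
  refine ⟨ψ, fun θ => ?_, ?_⟩
  · have := hcl2 1 θ
    rwa [seg_one] at this
  · have : (fun θ => H (1, θ)) = fun θ => theta ψ (G (⟨io n θ, io_mem n θ⟩, s')) := by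
      funext θ
      simp only [H, seg_one]
    rw [← this]
    exact hfin

theorem t_null : StDeg → StSurj → StTheta → StNull := by
  intro hDeg hSurj hTheta G hG h0 h1
  have huc := CompactSpace.uniformContinuous_of_continuous hG
  obtain ⟨δ, hδ0, hδ⟩ := Metric.uniformContinuous_iff.1 huc (1 / 16) (by norm_num)
  obtain ⟨n, hn⟩ : ∃ n : ℕ, 2 * rr n < δ := by
    have ht : Filter.Tendsto (fun n : ℕ => 2 * rr n) Filter.atTop (𝓝 (2 * 0)) := by
      refine Filter.Tendsto.const_mul 2 ?_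
      refine Real.tendsto_exp_neg_atTop_nhds_zero.comp ?_
      exact tendsto_natCast_atTop_atTop.atTop_mul_const (by positivity)
    rw [mul_zero] at ht
    exact (ht.eventually (gt_mem_nhds hδ0)).exists
  have hstep : ∀ s s' : unitInterval, dist s' s < δ → T G n s → T G n s' := fun s s' hs h =>
    T_step hDeg hSurj hTheta hG (fun p q hpq => hδ hpq) hn hs h
  have hopen : IsOpen {s | T G n s} := by
    rw [Metric.isOpen_iff]
    intro s hs
    exact ⟨δ, hδ0, fun s' hs' => hstep s s' (Metric.mem_ball.1 hs') hs⟩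
  have hclosed : IsClosed {s | T G n s} := by
    rw [← isOpen_compl_iff, Metric.isOpen_iff]
    intro s hs
    refine ⟨δ, hδ0, fun s' hs' hT => hs (hstep s' s ?_ hT)⟩
    rw [dist_comm]
    exact Metric.mem_ball.1 hs'
  have huniv := IsClopen.eq_univ ⟨hclosed, hopen⟩ ⟨0, T_zero h0 n⟩
  have : (1 : unitInterval) ∈ {s | T G n s} := by rw [huniv]; trivial
  exact not_T_one h1 n this

end Pool.Agent.Y486.PC
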