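import Pool.Agent.Y704.PC.Stm

/-! PC-THETA: the circle coordinate on the spiral tube. -/

set_option autoImplicit false

open Set Topology

namespace Pool.Agent.Y486.PC

open Pool.Agent.Y704.PC Pool.Agent.W621

/-- facts on points of the tube -/
theorem key {φ : ℝ} {x : (ℝ × ℂ) × ℂ} (hx : x ∈ O φ) (h : x.2 ≠ 0) :
    0 < x.1.1 ∧ ‖x.2 + x.1.1‖ = x.1.1 ∧ 0 < Real.cos (Real.log x.1.1 - φ) := by
  obtain ⟨⟨h0, h1, h2, h3⟩, h4⟩ := hx
  rcases h3 with h3 | ⟨h3, h5⟩
  · exact absurd h3 h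
  have hr : 0 < x.1.1 := by
    refine lt_of_le_of_ne h0 fun h6 => h ?_
    rw [← h6] at h5
    simpa using h5
  refine ⟨hr, h5, ?_⟩
  rw [Spiral.snd_eq h3 hr, ← Complex.exp_add] at h4
  have h6 : (Real.log x.1.1 : ℂ) * Complex.I + -((φ : ℂ) * Complex.I) =
      ((Real.log x.1.1 - φ : ℝ) : ℂ) * Complex.I := by
    push_cast; ring
  rw [h6, Complex.exp_ofReal_mul_I_re] at h4
  exact h4

theorem a_lt_b (φ : ℝ) : Real.exp (φ - Real.pi) < Real.exp (φ + Real.pi) := by
  apply Real.exp_lt_exp.2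
  have := Real.pi_pos
  linarith

theorem theta_cont (φ : ℝ) : ContinuousOn (theta φ) (O φ) := by
  rw [continuousOn_iff_continuous_restrict]
  set a := Real.exp (φ - Real.pi) with ha
  set b := Real.exp (φ + Real.pi) with hb
  have hab : a < b := a_lt_b φ
  have ha0 : 0 < a := Real.exp_pos _
  let g : O φ → ℂ := fun x => 1 + (x : (ℝ × ℂ) × ℂ).2 / ((max (x : (ℝ × ℂ) × ℂ).1.1 a : ℝ) : ℂ)
  have hg : Continuous g := by
    refine continuous_const.add (Continuous.div (by fun_prop) ?_ ?_)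
    · exact Complex.continuous_ofReal.comp (by fun_prop)
    · intro x
      have : 0 < max (x : (ℝ × ℂ) × ℂ).1.1 a := lt_of_lt_of_le ha0 (le_max_right _ _)
      exact_mod_cast this.ne'
  have hfst : Continuous fun x : O φ => (x : (ℝ × ℂ) × ℂ).1.1 := by fun_prop
  have h1 : Continuous fun x : O φ => if b ≤ (x : (ℝ × ℂ) × ℂ).1.1 then (1 : ℂ) else g x := by
    refine Continuous.if_le continuous_const hg continuous_const hfst ?_
    intro x hx
    by_cases h : (x : (ℝ × ℂ) × ℂ).2 = 0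
    · simp [g, h]
    · exfalso
      have := (key x.2 h).2.2
      rw [← hx, hb, Real.log_exp] at this
      have h2 : φ + Real.pi - φ = Real.pi := by ring
      rw [h2, Real.cos_pi] at this
      linarith
  have h2 : Continuous fun x : O φ => if (x : (ℝ × ℂ) × ℂ).1.1 ≤ a then (1 : ℂ) else
      if b ≤ (x : (ℝ × ℂ) × ℂ).1.1 then (1 : ℂ) else g x := by
    refine Continuous.if_le continuous_const h1 hfst continuous_const ?_
    intro x hx
    rw [if_neg (by rw [hx]; exact not_le.2 hab)]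
    by_cases h : (x : (ℝ × ℂ) × ℂ).2 = 0
    · simp [g, h]
    · exfalso
      have := (key x.2 h).2.2
      rw [hx, ha, Real.log_exp] at this
      have h2 : φ - Real.pi - φ = -Real.pi := by ring
      rw [h2, Real.cos_neg, Real.cos_pi] at this
      linarith
  refine h2.congr fun x => ?_
  show _ = theta φ x
  unfold theta
  by_cases h3 : (x : (ℝ × ℂ) × ℂ).1.1 ≤ a
  · rw [if_pos h3, if_pos h3]
  · rw [if_neg h3, if_neg h3]
    by_cases h4 : b ≤ (x : (ℝ × ℂ) × ℂ).1.1
    · rw [if_pos h4, if_pos h4]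
    · rw [if_neg h4, if_neg h4]
      simp only [g]
      rw [max_eq_left (not_le.1 h3).le]

theorem theta_zero (φ : ℝ) {x : (ℝ × ℂ) × ℂ} (h : x.2 = 0) : theta φ x = 1 := by
  unfold theta
  rw [h]
  split_ifs <;> simp

theorem theta_norm (φ : ℝ) (x : (ℝ × ℂ) × ℂ) (hx : x ∈ O φ) : ‖theta φ x‖ = 1 := by
  by_cases h : x.2 = 0
  · rw [theta_zero φ h, norm_one]
  · obtain ⟨hr, h1, -⟩ := key hx h
    unfold theta
    split_ifs
    · exact norm_one
    · exact norm_one
    · have hr' : (x.1.1 : ℂ) ≠ 0 := by exact_mod_cast hr.ne'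
      have h2 : 1 + x.2 / (x.1.1 : ℂ) = (x.2 + x.1.1) / (x.1.1 : ℂ) := by
        field_simp
        ring
      rw [h2, norm_div, h1, Complex.norm_real, Real.norm_eq_abs, abs_of_pos hr, div_self hr.ne']

theorem small_of_cos {a b : ℝ} (ha : |a| < Real.pi) (ha' : 0 < Real.cos a)
    (hab : |a - b| < Real.pi) (hb' : 0 < Real.cos b) : |b| < Real.pi := by
  have pp := Real.pi_pos
  have h1 : |a| < Real.pi / 2 := by
    by_contra hcon
    rw [not_lt] at hcon
    have := Real.cos_nonpos_of_pi_div_two_le_of_le hcon (by linarith)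
    rw [Real.cos_abs] at this
    linarith
  have h2 : |b| < Real.pi + Real.pi / 2 := by
    have h3 : |b| ≤ |a - b| + |a| := by
      have := abs_sub a (a - b)
      have h4 : a - (a - b) = b := by ring
      rw [h4] at this
      linarith
    linarith
  by_contra hcon
  rw [not_lt] at hcon
  have := Real.cos_nonpos_of_pi_div_two_le_of_le (x := |b|) (by linarith) (by linarith)
  rw [Real.cos_abs] at this
  linarith

theorem third_iff {φ : ℝ} {x : (ℝ × ℂ) × ℂ} (hr : 0 < x.1.1) :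
    theta φ x = if |Real.log x.1.1 - φ| < Real.pi then 1 + x.2 / x.1.1 else 1 := by
  unfold theta
  by_cases h : |Real.log x.1.1 - φ| < Real.pi
  · rw [if_pos h]
    rw [abs_lt] at h
    have h1 : ¬ x.1.1 ≤ Real.exp (φ - Real.pi) := by
      rw [← Real.log_le_iff_le_exp hr]
      intro h2
      linarith [h.1]
    have h2 : ¬ Real.exp (φ + Real.pi) ≤ x.1.1 := by
      rw [← Real.le_log_iff_exp_le hr]
      intro h2
      linarith [h.2]
    rw [if_neg h1, if_neg h2]
  · rw [if_neg h]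
    by_cases h1 : x.1.1 ≤ Real.exp (φ - Real.pi)
    · rw [if_pos h1]
    · rw [if_neg h1]
      rw [← Real.log_le_iff_le_exp hr] at h1
      have h2 : Real.exp (φ + Real.pi) ≤ x.1.1 := by
        rw [← Real.le_log_iff_exp_le hr]
        by_contra h3
        exact h (abs_lt.2 ⟨by linarith, by linarith⟩)
      rw [if_pos h2]

theorem theta_eq (φ ψ : ℝ) (x : (ℝ × ℂ) × ℂ) (h : |φ - ψ| < Real.pi) (h1 : x ∈ O φ)
    (h2 : x ∈ O ψ) : theta φ x = theta ψ x := by
  by_cases h0 : x.2 = 0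
  · rw [theta_zero φ h0, theta_zero ψ h0]
  · obtain ⟨hr, -, hc1⟩ := key h1 h0
    obtain ⟨-, -, hc2⟩ := key h2 h0
    rw [third_iff hr, third_iff hr]
    have hd : |(Real.log x.1.1 - φ) - (Real.log x.1.1 - ψ)| < Real.pi := by
      have : (Real.log x.1.1 - φ) - (Real.log x.1.1 - ψ) = -(φ - ψ) := by ring
      rw [this, abs_neg]
      exact h
    have hd' : |(Real.log x.1.1 - ψ) - (Real.log x.1.1 - φ)| < Real.pi := by
      rw [abs_sub_comm]
      exact hd
    by_cases h3 : |Real.log x.1.1 - φ| < Real.pi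
    · rw [if_pos h3, if_pos (small_of_cos h3 hc1 hd hc2)]
    · rw [if_neg h3, if_neg fun h4 => h3 (small_of_cos h4 hc2 hd' hc1)]

theorem t_theta : StTheta :=
  ⟨fun φ => ⟨theta_cont φ, theta_norm φ⟩, theta_eq⟩

end Pool.Agent.Y486.PC
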